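import Pool.Agent.Results.MP_18ea5f_nt.AllDegreesOverNumberFields
import Pool.Agent.X283.DA.CountVar

/-!
# The rational points with heights in short intervals at real powers and at denominators of approximations on all forms of
`(ℙ¹)ⁿ // SL₂` over number fields
-/

set_option autoImplicit false

namespace Pool.Agent.Results.MP_18ea5f_nt.CountsAtPowersAndDenominators

open NumberField Module
open Pool.Agent.X283.DA
open Pool.Agent.Results.MP_18ea5f_nt.AllDegreesOverNumberFields (Alg Distinct Equivalent ht Big fuj deg points Eff)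

section

variable (F : Type) [Field F] [NumberField F] {s : Type} [Fintype s] [DecidableEq s]
  (K : s → Type) [∀ i, Field (K i)] [∀ i, NumberField (K i)] [∀ i, Algebra F (K i)]

/-- The `F`-rational points of the open subset of the form `V_A` of `V_n = (ℙ¹)ⁿ // SL₂` given by `n` distinct points of the line
(`A = ∏ K_i`): the classes of the pairs of elements of `A` with distinct conjugates. -/
def Points : Set (Set (Alg K × Alg K)) := {C | ∃ P, Distinct F P ∧ C = {P' | Equivalent F P P'}}

variable {K}

/-- The height of a point for the integral class `e` (the square root of the height for `2 e`; the infimum is over all pairs which give the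
point). -/
noncomputable def height (e : s → ℕ) (C : Set (Alg K × Alg K)) : ℝ :=
  sInf {r : ℝ | ∃ P, Distinct F P ∧ C = {P' | Equivalent F P P'} ∧ r = √(ht F (fun i => 2 * e i) P)}

variable (K)

/-- The big integral classes on `V_A`. -/
def Classes : Type := {e : s → ℕ // Big F K e}

/-- The three assertions for all big integral classes `e` on `V_A` at once, for the exponents `max(a(V_A, e) - δ, 0)`. -/
def Bounds (θ δ : ℝ) : Prop :=
  VarAtPowers (fun _ : Classes F K => Points F K) (fun e => height F e.1) θ (fun e => max (fuj F K e.1 - δ) 0) (δ + θ) ∧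
  VarAtExponents (fun _ : Classes F K => Points F K) (fun e => height F e.1) θ (fun e => max (fuj F K e.1 - δ) 0) (δ + θ) ∧
  VarAtDenominators (fun _ : Classes F K => Points F K) (fun e => height F e.1) θ (fun e => max (fuj F K e.1 - δ) 0) (δ + θ)

end

/-- **Theorem.** Let `F` be a number field, `A = ∏ K_i` an etale algebra of degree `n ≥ 5` over `F`, `V_A` the corresponding form of
`(ℙ¹)ⁿ // SL₂`, `0 ≤ θ ≤ 1`, `0 ≤ δ`. For the rational points of the open subset of `V_A` and the heights of ALL big integral classes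
`e` on `V_A` at once, the assertions `VarAtPowers`, `VarAtExponents` and `VarAtDenominators` hold with `β(e) = max(a(V_A, e) - δ, 0)`,
`a` the Fujita invariant, and `σ = δ + θ`. -/
theorem result (F : Type) [Field F] [NumberField F] {s : Type} [Fintype s] [DecidableEq s]
    (K : s → Type) [∀ i, Field (K i)] [∀ i, NumberField (K i)] [∀ i, Algebra F (K i)] (hn : 5 ≤ deg F K)
    (θ δ : ℝ) (hθ : 0 ≤ θ) (hθ1 : θ ≤ 1) (hδ : 0 ≤ δ) : Bounds F K θ δ := by
  classical
  have hs : Nonempty s := by
    by_contra hcon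
    rw [not_nonempty_iff] at hcon
    have : deg F K = 0 := by
      unfold Pool.Agent.Results.MP_18ea5f_nt.AllDegreesOverNumberFields.deg
      simp
    omega
  have hcount : Countable (Classes F K) := by
    unfold Classes
    infer_instance
  have hκ0 : ∀ e : Classes F K, 0 ≤ fuj F K e.1 := by
    intro e
    unfold Pool.Agent.Results.MP_18ea5f_nt.AllDegreesOverNumberFields.fuj
    apply Real.sInf_nonneg
    intro t ht
    obtain ⟨i⟩ := hs
    have h1 := (ht i).1
    simp only at h1
    have h2 : (0 : ℝ) < e.1 i := by exact_mod_cast (e.2 i).1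
    by_contra hcon
    rw [not_le] at hcon
    nlinarith
  refine count_var (fun _ : Classes F K => Points F K) (fun e => height F e.1)
    (s := fun e => fuj F K e.1) (β := fun e => max (fuj F K e.1 - δ) 0) hκ0 hθ hθ1
    (fun e => le_max_right _ _) (fun e => max_le (by linarith) (hκ0 e)) (by linarith)
    (fun e => ?_) fun e => ?_
  · have := le_max_left (fuj F K e.1 - δ) 0
    linarith
  obtain ⟨e, he⟩ := e
  set κ : ℝ := fuj F K e with hκ
  obtain ⟨C, hC⟩ := Pool.Agent.Results.MP_18ea5f_nt.AllDegreesOverNumberFields.result F K hn e he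
  set k : ℕ := Fintype.card s - 1 with hk
  have hcnt : ∀ ε : ℝ, 0 < ε → ∃ C' : ℝ, ∀ X : ℝ, 1 ≤ X → {c | c ∈ Points F K ∧ height F e c ≤ X}.Finite ∧
      ({c | c ∈ Points F K ∧ height F e c ≤ X}.ncard : ℝ) ≤ C' * X ^ (κ + ε) := by
    intro ε hε
    set η : ℝ := ε / ((k : ℝ) + 1) with hη
    have hη0 : 0 < η := by positivity
    refine ⟨|C| * 2 ^ κ * (2 + 1 / η) ^ k, fun X hX => ?_⟩
    have hX0 : 0 < X := by linarith
    obtain ⟨h1, h2⟩ := hC (2 * X) (by linarith)
    have hsub : {c | c ∈ Points F K ∧ height F e c ≤ X} ⊆ points F K (fun i => 2 * e i) ((2 * X) ^ 2) := by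
      rintro c ⟨⟨P, hP, hc⟩, h3⟩
      have h4 : height F e c < 2 * X := by linarith
      obtain ⟨r, ⟨P', hP', hc', hr⟩, h5⟩ := exists_lt_of_csInf_lt
        (s := {r : ℝ | ∃ P, Distinct F P ∧ c = {P' | Equivalent F P P'} ∧ r = √(ht F (fun i => 2 * e i) P)}) ⟨_, P, hP, hc, rfl⟩ h4
      refine ⟨P', hP', hc', ?_⟩
      rw [hr] at h5
      exact (Real.sqrt_le_iff.1 h5.le).2
    refine ⟨h1.subset hsub, ?_⟩
    have h3 : ({c | c ∈ Points F K ∧ height F e c ≤ X}.ncard : ℝ) ≤ ((points F K (fun i => 2 * e i) ((2 * X) ^ 2)).ncard : ℝ) := by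
      exact_mod_cast Set.ncard_le_ncard hsub h1
    refine h3.trans (h2.trans ?_)
    have h4 : 0 ≤ Real.log (2 * X) := Real.log_nonneg (by linarith)
    have h5 : 1 + Real.log (2 * X) ≤ (2 + 1 / η) * X ^ η := by
      rw [Real.log_mul (by norm_num) hX0.ne']
      have h6 := Real.log_le_rpow_div hX0.le hη0
      have h7 : (1 : ℝ) ≤ X ^ η := Real.one_le_rpow hX hη0.le
      have h8 : Real.log 2 ≤ 1 := by
        have := Real.log_two_lt_d9
        linarith
      have h9 : X ^ η / η = 1 / η * X ^ η := by ring
      rw [h9] at h6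
      nlinarith
    have h6 : (1 + Real.log (2 * X)) ^ k ≤ (2 + 1 / η) ^ k * X ^ ε := by
      calc (1 + Real.log (2 * X)) ^ k ≤ ((2 + 1 / η) * X ^ η) ^ k := pow_le_pow_left₀ (by linarith) h5 k
        _ = (2 + 1 / η) ^ k * X ^ (η * k) := by rw [mul_pow, ← Real.rpow_natCast (X ^ η) k, ← Real.rpow_mul hX0.le]
        _ ≤ (2 + 1 / η) ^ k * X ^ ε := by
            apply mul_le_mul_of_nonneg_left _ (by positivity)
            apply Real.rpow_le_rpow_of_exponent_le hX
            rw [hη, div_mul_eq_mul_div, div_le_iff₀ (by positivity)]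
            nlinarith
    rw [Real.mul_rpow (by norm_num) hX0.le]
    calc C * (2 ^ κ * X ^ κ) * (1 + Real.log (2 * X)) ^ k ≤ |C| * (2 ^ κ * X ^ κ) * ((2 + 1 / η) ^ k * X ^ ε) := by
          apply mul_le_mul _ h6 (by positivity) (by positivity)
          exact mul_le_mul_of_nonneg_right (le_abs_self C) (by positivity)
      _ = |C| * 2 ^ κ * (2 + 1 / η) ^ k * (X ^ κ * X ^ ε) := by ring
      _ = |C| * 2 ^ κ * (2 + 1 / η) ^ k * X ^ (κ + ε) := by rw [Real.rpow_add hX0]
  exact hcnt

end Pool.Agent.Results.MP_18ea5f_nt.CountsAtPowersAndDenominators
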