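import Pool.Agent.Results.MP_18ea5f_nt.AllDegreesOverNumberFields
import Pool.Agent.X35.ZW.Count

/-!
# The rational points with heights in short intervals around `α v_i` on all forms of `(ℙ¹)ⁿ // SL₂` over number fields
-/

set_option autoImplicit false

namespace Pool.Agent.Results.MP_18ea5f_nt.HeightsNearSequences

open NumberField Module
open Pool.Agent.Results.MP_18ea5f_nt.AllDegreesOverNumberFields (Alg Distinct Equivalent ht Big fuj deg points Eff)

section

variable (F : Type) [Field F] [NumberField F] {s : Type} [Fintype s] [DecidableEq s]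
  (K : s → Type) [∀ i, Field (K i)] [∀ i, NumberField (K i)] [∀ i, Algebra F (K i)]

/-- The `F`-rational points of the open subset of the form `V_A` of `V_n = (ℙ¹)ⁿ // SL₂` given by `n` distinct points of the line
(`A = ∏ K_i`): the classes of the pairs of elements of `A` with distinct conjugates. -/
def Points : Set (Set (Alg K × Alg K)) := {C | ∃ P, Distinct F P ∧ C = {P' | Equivalent F P P'}}

variable {K}

/-- The height of a point for the integral class `e` (the square root of the height for `2 e`; the infimum is over all pairs which give the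
point). -/
noncomputable def height (e : s → ℕ) (C : Set (Alg K × Alg K)) : ℝ :=
  sInf {r : ℝ | ∃ P, Distinct F P ∧ C = {P' | Equivalent F P P'} ∧ r = √(ht F (fun i => 2 * e i) P)}

end

/-- Let `F` be a number field, `A = ∏ K_i` an etale algebra of degree `n ≥ 5` over `F`, `V_A` the corresponding form of `(ℙ¹)ⁿ // SL₂`, let
`v_i ≥ 1` with `∑ v_i ^ (-t) < ∞` for all `t > τ` (`τ ≥ 0`; for example `v_i = 2 ^ i`, `τ = 0`), `0 ≤ θ < 1` and `0 ≤ δ`. There is a
set `E` of reals of Hausdorff dimension at most `(δ + τ) / (1 - θ)` such that for every real `α > 0` outside `E` and ALL big integral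
classes `e` on `V_A`, with `a = a(V_A, e)` the Fujita invariant, for all `i ≥ i₀` the number of the rational points `x` of the open subset
with `|H_e(x) - α v_i| ≤ v_i ^ θ` is at most `v_i ^ max(a - δ, 0)`.

For `τ = 0` and almost every `α` this holds with `δ` as close to `1 - θ` as we like, so that the number of the points with
`|H_e(x) - α v_i| ≤ v_i ^ θ` is at most `v_i ^ (a - 1 + ε)` times the length of the interval, if `a ≥ 1 - θ`. -/
theorem result (F : Type) [Field F] [NumberField F] {s : Type} [Fintype s] [DecidableEq s]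
    (K : s → Type) [∀ i, Field (K i)] [∀ i, NumberField (K i)] [∀ i, Algebra F (K i)] (hn : 5 ≤ deg F K)
    (v : ℕ → ℝ) (τ θ δ : ℝ) (hv1 : ∀ i, 1 ≤ v i) (hτ : 0 ≤ τ) (hθ0 : 0 ≤ θ) (hθ : θ < 1) (hv : ∀ t : ℝ, τ < t → Summable (fun i => v i ^ (-t)))
    (hδ : 0 ≤ δ) :
    ∃ E : Set ℝ, dimH E ≤ ENNReal.ofReal ((δ + τ) / (1 - θ)) ∧ ∀ α : ℝ, 0 < α → α ∉ E → ∀ e : s → ℕ, Big F K e →
      ∃ i₀ : ℕ, ∀ i : ℕ, i₀ ≤ i → {C | C ∈ Points F K ∧ |height F e C - α * v i| ≤ v i ^ θ}.Finite ∧
        ({C | C ∈ Points F K ∧ |height F e C - α * v i| ≤ v i ^ θ}.ncard : ℝ) ≤ v i ^ max (fuj F K e - δ) 0 := by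
  classical
  have hs : Nonempty s := by
    by_contra hcon
    rw [not_nonempty_iff] at hcon
    have : deg F K = 0 := by
      unfold Pool.Agent.Results.MP_18ea5f_nt.AllDegreesOverNumberFields.deg
      simp
    omega
  have hone : ∀ e : s → ℕ, ∃ E : Set ℝ, dimH E ≤ ENNReal.ofReal ((δ + τ) / (1 - θ)) ∧ ∀ α : ℝ, 0 < α → α ∉ E → Big F K e →
      ∃ i₀ : ℕ, ∀ i : ℕ, i₀ ≤ i → {C | C ∈ Points F K ∧ |height F e C - α * v i| ≤ v i ^ θ}.Finite ∧
        ({C | C ∈ Points F K ∧ |height F e C - α * v i| ≤ v i ^ θ}.ncard : ℝ) ≤ v i ^ max (fuj F K e - δ) 0 := by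
    intro e
    by_cases he : Big F K e
    · set κ : ℝ := fuj F K e with hκ
      have hκ0 : 0 ≤ κ := by
        rw [hκ]
        unfold Pool.Agent.Results.MP_18ea5f_nt.AllDegreesOverNumberFields.fuj
        apply Real.sInf_nonneg
        intro t ht
        obtain ⟨i⟩ := hs
        have h1 := (ht i).1
        simp only at h1
        have h2 : (0 : ℝ) < e i := by exact_mod_cast (he i).1
        by_contra hcon
        rw [not_le] at hcon
        nlinarith
      obtain ⟨C, hC⟩ := Pool.Agent.Results.MP_18ea5f_nt.AllDegreesOverNumberFields.result F K hn e he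
      set k : ℕ := Fintype.card s - 1 with hk
      have hcnt : ∀ ε : ℝ, 0 < ε → ∃ C' : ℝ, ∀ X : ℝ, 1 ≤ X → {c | c ∈ Points F K ∧ height F e c ≤ X}.Finite ∧
          ({c | c ∈ Points F K ∧ height F e c ≤ X}.ncard : ℝ) ≤ C' * X ^ (κ + ε) := by
        intro ε hε
        set η : ℝ := ε / ((k : ℝ) + 1) with hη
        have hη0 : 0 < η := by positivity
        refine ⟨|C| * 2 ^ κ * (2 + 1 / η) ^ k, fun X hX => ?_⟩
        have hX0 : 0 < X := by linarith
        obtain ⟨h1, h2⟩ := hC (2 * X) (by linarith)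
        have hsub : {c | c ∈ Points F K ∧ height F e c ≤ X} ⊆ points F K (fun i => 2 * e i) ((2 * X) ^ 2) := by
          rintro c ⟨⟨P, hP, hc⟩, h3⟩
          have h4 : height F e c < 2 * X := by linarith
          obtain ⟨r, ⟨P', hP', hc', hr⟩, h5⟩ := exists_lt_of_csInf_lt
            (s := {r : ℝ | ∃ P, Distinct F P ∧ c = {P' | Equivalent F P P'} ∧ r = √(ht F (fun i => 2 * e i) P)}) ⟨_, P, hP, hc, rfl⟩ h4
          refine ⟨P', hP', hc', ?_⟩
          rw [hr] at h5
          exact (Real.sqrt_le_iff.1 h5.le).2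
        refine ⟨h1.subset hsub, ?_⟩
        have h3 : ({c | c ∈ Points F K ∧ height F e c ≤ X}.ncard : ℝ) ≤ ((points F K (fun i => 2 * e i) ((2 * X) ^ 2)).ncard : ℝ) := by
          exact_mod_cast Set.ncard_le_ncard hsub h1
        refine h3.trans (h2.trans ?_)
        have h4 : 0 ≤ Real.log (2 * X) := Real.log_nonneg (by linarith)
        have h5 : 1 + Real.log (2 * X) ≤ (2 + 1 / η) * X ^ η := by
          rw [Real.log_mul (by norm_num) hX0.ne']
          have h6 := Real.log_le_rpow_div hX0.le hη0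
          have h7 : (1 : ℝ) ≤ X ^ η := Real.one_le_rpow hX hη0.le
          have h8 : Real.log 2 ≤ 1 := by
            have := Real.log_two_lt_d9
            linarith
          have h9 : X ^ η / η = 1 / η * X ^ η := by ring
          rw [h9] at h6
          nlinarith
        have h6 : (1 + Real.log (2 * X)) ^ k ≤ (2 + 1 / η) ^ k * X ^ ε := by
          calc (1 + Real.log (2 * X)) ^ k ≤ ((2 + 1 / η) * X ^ η) ^ k := pow_le_pow_left₀ (by linarith) h5 k
            _ = (2 + 1 / η) ^ k * X ^ (η * k) := by rw [mul_pow, ← Real.rpow_natCast (X ^ η) k, ← Real.rpow_mul hX0.le]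
            _ ≤ (2 + 1 / η) ^ k * X ^ ε := by
                apply mul_le_mul_of_nonneg_left _ (by positivity)
                apply Real.rpow_le_rpow_of_exponent_le hX
                rw [hη, div_mul_eq_mul_div, div_le_iff₀ (by positivity)]
                nlinarith
        rw [Real.mul_rpow (by norm_num) hX0.le]
        calc C * (2 ^ κ * X ^ κ) * (1 + Real.log (2 * X)) ^ k ≤ |C| * (2 ^ κ * X ^ κ) * ((2 + 1 / η) ^ k * X ^ ε) := by
              apply mul_le_mul _ h6 (by positivity) (by positivity)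
              exact mul_le_mul_of_nonneg_right (le_abs_self C) (by positivity)
          _ = |C| * 2 ^ κ * (2 + 1 / η) ^ k * (X ^ κ * X ^ ε) := by ring
          _ = |C| * 2 ^ κ * (2 + 1 / η) ^ k * X ^ (κ + ε) := by rw [Real.rpow_add hX0]
      have h0 : 0 ≤ κ - max (κ - δ) 0 := by
        rw [sub_nonneg]
        exact max_le (by linarith) hκ0
      have h1 : κ - max (κ - δ) 0 ≤ δ := by
        have := le_max_left (κ - δ) 0
        linarith
      obtain ⟨E, hE, h⟩ := Pool.Agent.X35.ZW.count_windows (Points F K) (height F e) κ (max (κ - δ) 0) (le_max_right _ _) h0 hcnt hv1 hτ hv hθ0 hθ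
      refine ⟨E, hE.trans (ENNReal.ofReal_le_ofReal ?_), fun α hα hαE _ => h α hα hαE⟩
      apply div_le_div_of_nonneg_right _ (by linarith)
      linarith
    · exact ⟨∅, by simp, fun α _ _ h => absurd h he⟩
  choose E hE1 hE2 using hone
  refine ⟨⋃ e, E e, ?_, fun α hα hαE e he => hE2 e α hα (fun h => hαE (Set.mem_iUnion.2 ⟨_, h⟩)) he⟩
  rw [dimH_iUnion]
  exact iSup_le hE1

end Pool.Agent.Results.MP_18ea5f_nt.HeightsNearSequences
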