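import Mathlib
import Pool.Agent.X324.ML.Main
import Pool.Agent.X324.ML.Nonempty

/-!
The weak form of the conjecture of Manin for complete intersections `X` of `k ≥ 1` divisors of
type `(1, …, 1)` in the product of any number `r ≥ 2` of projective spaces `ℙ^(N i - 1)`, over the
rational numbers and for all ample line bundles `L`, under a condition on the ranks of the slices.

* `Vec N R`: families `x = (x i)` of vectors `x i : Fin (N i) → R`, one for each factor.
* `mf (a c) x`: the value at `x` of the multilinear form with the integer coefficients `a c`; `X` is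
  given by the `k` equations `mf (a c) x = 0`.
* `gr (a c) x i`: the vector of the partial derivatives of this form with respect to `x i` at `x`.
* `sl (a c) x i j`: the matrix of the bilinear form in the arguments `i`, `j` which is obtained when
  the other arguments are `x l` (`l ≠ i, j`).
* `RankCond a R`: for all integer vectors `s ≠ 0` and all integer points `x` with all `x l ≠ 0` the
  matrix `∑ c, s c • sl (a c) x i j` has rank at least `R` (`i ≠ j`).
* `LI a x i`: the `k` vectors `gr (a c) x i` are linearly independent. The open set `U` consists of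
  the points of `X` with `LI a x i` for all `i`.
* `Rep v`: `v` is the normalised primitive integer representative of a rational point of a
  projective space; `ht v` is its height, the maximum of the absolute values of the coordinates.
* `Pts a l T`: the rational points of `U` (given by normalised representatives) with
  `∏ i, ht (x i) ^ l i ≤ T`.
* `fuj N k l`: the infimum of all `t` such that `t L + K` is in the cone generated by the classes
  `h i`, for `L = ∑ l i h i` and `K = -∑ (N i - k) h i`.
-/

namespace Pool.Agent.Results.MP_18ea5f_nt.MultilinearCompleteIntersections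

open Pool.Agent.X324.ML

theorem result {ι : Type} [Fintype ι] [DecidableEq ι] (hr : 2 ≤ Fintype.card ι) {N : ι → ℕ}
    (hN : ∀ i, 1 ≤ N i) {k : ℕ} (hk : 1 ≤ k) (a : Fin k → (∀ i, Fin (N i)) → ℤ)
    (hR : RankCond a (k + (Fintype.card ι - 1) * k ^ 2)) :
    (∃ x : Vec N ℤ, (∀ i, x i ≠ 0) ∧ (∀ c, mf (a c) x = 0) ∧ ∀ i, LI a x i) ∧
    ∀ l : ι → ℝ, (∀ i, 0 < l i) → ∀ ε : ℝ, 0 < ε → ∃ C : ℝ, ∀ T : ℝ, 1 ≤ T →
      (Pts a l T).Finite ∧ ((Pts a l T).ncard : ℝ) ≤ C * T ^ (fuj N k l + ε) := by
  have hRN := hR.le hk hr hN
  have h1 : k ^ 2 ≤ (Fintype.card ι - 1) * k ^ 2 := Nat.le_mul_of_pos_left _ (by omega)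
  have h2 : 0 < k ^ 2 := by positivity
  refine ⟨nonempty hk hR hr (by omega) hN, ?_⟩
  intro l hl ε hε
  refine upper a (by omega) (fun i => ?_) (card_S a hk hR hr le_rfl hRN) l hl ε hε
  have := hRN i
  omega

end Pool.Agent.Results.MP_18ea5f_nt.MultilinearCompleteIntersections
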