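import Mathlib
import Pool.Agent.X324.ML.Main
import Pool.Agent.X324.ML.Rank

/-!
The weak form of the conjecture of Manin for all smooth complete intersections `X` of `k ≥ 1`
divisors of type `(1, 1, 1)` in the product of three projective spaces `ℙ^(N i - 1)` with
`N i + N j - N l ≥ 4 k² + 3 k - 2` (for example `N i = N ≥ 4 k² + 3 k - 2`), and for all smooth
complete intersections of `k` divisors of type `(1, 1)` in the product of two projective spaces
with `N 0 + N 1 ≥ 2 k² + 3 k - 1` and `N i ≥ k² + k`, over the rational numbers and for all big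
and nef line bundles `L`.

* `Vec N R`: families `x = (x i)` of vectors `x i : Fin (N i) → R`, one for each factor.
* `mf (a c) x`: the value at `x` of the multilinear form with the integer coefficients `a c`; `X` is
  given by the `k` equations `mf (a c) x = 0`.
* `gr (a c) x i`: the vector of the partial derivatives of this form with respect to `x i` at `x`.
* `Smooth a`: at every complex point of `X` the `k` gradients (with respect to all variables) are
  linearly independent.
* `LI a x i`: the `k` vectors `gr (a c) x i` are linearly independent. The open set `U` consists of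
  the points of `X` with `LI a x i` for all `i`.
* `Rep v`: `v` is the normalised primitive integer representative of a rational point of a
  projective space; `ht v` is its height, the maximum of the absolute values of the coordinates.
* `Pts a l T`: the rational points of `U` (given by normalised representatives) with
  `∏ i, ht (x i) ^ l i ≤ T`.
* `fuj N k l`: the infimum of all `t` such that `t L + K` is in the cone generated by the classes
  `h i`, for `L = ∑ l i h i` and `K = -∑ (N i - k) h i`.

The proof: by smoothness and the fact that fewer than `p + q - 1` bilinear forms in `p` and `q`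
variables over the complex numbers have a common zero with both vectors nonzero, the slices of all
members of the linear system have large rank (`rank_smooth`); the points of `X` are counted by a
descent between the projections of `X`, whose fibres are linear.
-/

namespace Pool.Agent.Results.MP_18ea5f_nt.SmoothCompleteIntersections

open Pool.Agent.X324.ML

/-- The general form, for `r ≥ 2` factors (the numerical condition can be satisfied
only for `r = 2` and `r = 3`). -/
theorem general {ι : Type} [Fintype ι] [DecidableEq ι] (hr : 2 ≤ Fintype.card ι) {N : ι → ℕ}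
    {k : ℕ} (hk : 1 ≤ k) (a : Fin k → (∀ i, Fin (N i)) → ℤ) (hs : Smooth a)
    (hN : ∀ i, k + (Fintype.card ι - 1) * k ^ 2 ≤ N i)
    (hNN : ∀ i j, i ≠ j → ∑ l ∈ (Finset.univ.erase i).erase j, (N l - 1) + k +
      2 * (k + (Fintype.card ι - 1) * k ^ 2) ≤ N i + N j + 1) :
    (∃ x : Vec N ℤ, (∀ i, x i ≠ 0) ∧ (∀ c, mf (a c) x = 0) ∧ ∀ i, LI a x i) ∧
    ∀ l : ι → ℝ, (∀ i, 0 < l i) → ∀ ε : ℝ, 0 < ε → ∃ C : ℝ, ∀ T : ℝ, 1 ≤ T →
      (Pts a l T).Finite ∧ ((Pts a l T).ncard : ℝ) ≤ C * T ^ (fuj N k l + ε) := by
  have hR := rankCond_of_smooth hs hN hNN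
  have h1 : k ^ 2 ≤ (Fintype.card ι - 1) * k ^ 2 := Nat.le_mul_of_pos_left _ (by omega)
  have h2 : 0 < k ^ 2 := by positivity
  refine ⟨nonempty hk hR hr (by omega) fun i => by have := hN i; omega, ?_⟩
  intro l hl ε hε
  refine upper a (by omega) (fun i => ?_) (card_S a hk hR hr le_rfl hN) l hl ε hε
  have := hN i
  omega

theorem result :
    (∀ (N : Fin 3 → ℕ) (k : ℕ), 1 ≤ k →
      (∀ i j l : Fin 3, i ≠ j → j ≠ l → l ≠ i → 4 * k ^ 2 + 3 * k + N l ≤ N i + N j + 2) →
      ∀ a : Fin k → (∀ i, Fin (N i)) → ℤ, Smooth a →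
      (∃ x : Vec N ℤ, (∀ i, x i ≠ 0) ∧ (∀ c, mf (a c) x = 0) ∧ ∀ i, LI a x i) ∧
      ∀ l : Fin 3 → ℝ, (∀ i, 0 < l i) → ∀ ε : ℝ, 0 < ε → ∃ C : ℝ, ∀ T : ℝ, 1 ≤ T →
        (Pts a l T).Finite ∧ ((Pts a l T).ncard : ℝ) ≤ C * T ^ (fuj N k l + ε)) ∧
    (∀ (N : Fin 2 → ℕ) (k : ℕ), 1 ≤ k → k ^ 2 + k ≤ N 0 → k ^ 2 + k ≤ N 1 →
      2 * k ^ 2 + 3 * k ≤ N 0 + N 1 + 1 →
      ∀ a : Fin k → (∀ i, Fin (N i)) → ℤ, Smooth a →
      (∃ x : Vec N ℤ, (∀ i, x i ≠ 0) ∧ (∀ c, mf (a c) x = 0) ∧ ∀ i, LI a x i) ∧
      ∀ l : Fin 2 → ℝ, (∀ i, 0 < l i) → ∀ ε : ℝ, 0 < ε → ∃ C : ℝ, ∀ T : ℝ, 1 ≤ T →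
        (Pts a l T).Finite ∧ ((Pts a l T).ncard : ℝ) ≤ C * T ^ (fuj N k l + ε)) := by
  constructor
  · intro N k hk hN a hs
    have hN' : ∀ i, 4 * k ^ 2 + 3 * k ≤ N i + 2 := by
      intro i
      obtain ⟨j, l, h1, h2, h3⟩ : ∃ j l : Fin 3, i ≠ j ∧ j ≠ l ∧ l ≠ i := by
        fin_cases i
        · exact ⟨1, 2, by decide, by decide, by decide⟩
        · exact ⟨2, 0, by decide, by decide, by decide⟩
        · exact ⟨0, 1, by decide, by decide, by decide⟩
      have h4 := hN i j l h1 h2 h3
      have h5 := hN i l j h3.symm h2.symm h1.symm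
      omega
    have hk2 : k ≤ k ^ 2 := Nat.le_self_pow (by norm_num) k
    refine general (by simp) hk a hs ?_ ?_
    · intro i
      have := hN' i
      rw [Fintype.card_fin]
      omega
    · intro i j hij
      obtain ⟨l, h2, h3, h4⟩ : ∃ l : Fin 3, j ≠ l ∧ l ≠ i ∧
          (Finset.univ.erase i).erase j = {l} := by
        revert hij
        revert i j
        decide
      rw [h4, Finset.sum_singleton, Fintype.card_fin]
      have h5 := hN i j l hij h2 h3
      have h6 := hN' l
      omega
  · intro N k hk h0 h1 h01 a hs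
    refine general (by simp) hk a hs ?_ ?_
    · intro i
      rw [Fintype.card_fin]
      fin_cases i
      · show k + (2 - 1) * k ^ 2 ≤ N 0
        omega
      · show k + (2 - 1) * k ^ 2 ≤ N 1
        omega
    · intro i j hij
      have h4 : (Finset.univ.erase i).erase j = (∅ : Finset (Fin 2)) := by
        revert hij
        revert i j
        decide
      have h5 : N i + N j = N 0 + N 1 := by
        fin_cases i <;> fin_cases j
        · exact absurd rfl hij
        · rfl
        · exact Nat.add_comm _ _
        · exact absurd rfl hij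
      rw [h4, Finset.sum_empty, Fintype.card_fin, h5]
      omega

end Pool.Agent.Results.MP_18ea5f_nt.SmoothCompleteIntersections
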